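import Pool.Agent.Helper61.QE.St4
import Pool.Agent.Helper71.TU.X5aux

/-!
# Project QD, PART E, module AT: the area theorem at a point
-/

open MeasureTheory Set Filter Topology Complex
open scoped ContDiff ComplexConjugate ENNReal

namespace Pool.Agent.Helper97.QE

open Pool.Agent.Helper68.QC Pool.Agent.Helper61.QE

/-- the automorphism of the disc -/
private noncomputable def ph (ζ u : ℂ) : ℂ := (u + ζ) / (1 + conj ζ * u)

private lemma den_ne {ζ : ℂ} (hζ : ‖ζ‖ < 1) {u : ℂ} (hu : ‖u‖ < 1) : 1 + conj ζ * u ≠ 0 := by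
  intro h
  have h1 : ‖conj ζ * u‖ < 1 := by
    rw [norm_mul, RCLike.norm_conj]
    nlinarith [norm_nonneg ζ, norm_nonneg u]
  have h2 : conj ζ * u = -1 := by linear_combination h
  rw [h2] at h1
  simp at h1

private lemma c_ne {ζ : ℂ} (hζ : ‖ζ‖ < 1) : (1 : ℂ) - conj ζ * ζ ≠ 0 := by
  have h := den_ne (ζ := -ζ) (by rwa [norm_neg]) hζ
  rw [map_neg] at h
  intro h'
  exact h (by linear_combination h')

private lemma c_norm {ζ : ℂ} (hζ : ‖ζ‖ < 1) : ‖(1 : ℂ) - conj ζ * ζ‖ = 1 - ‖ζ‖ ^ 2 := by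
  have h : (1 : ℂ) - conj ζ * ζ = ((1 - ‖ζ‖ ^ 2 : ℝ) : ℂ) := by
    rw [Complex.conj_mul']
    push_cast
    ring
  rw [h, Complex.norm_real, Real.norm_eq_abs, abs_of_nonneg]
  nlinarith [norm_nonneg ζ]

private lemma ph_mem {ζ : ℂ} (hζ : ‖ζ‖ < 1) {u : ℂ} (hu : ‖u‖ < 1) : ‖ph ζ u‖ < 1 := by
  rw [ph, norm_div, div_lt_one (norm_pos_iff.2 (den_ne hζ hu))]
  refine lt_of_pow_lt_pow_left₀ 2 (norm_nonneg _) ?_
  rw [← Complex.normSq_eq_norm_sq, ← Complex.normSq_eq_norm_sq]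
  have h1 : ‖ζ‖ ^ 2 < 1 := by nlinarith [norm_nonneg ζ]
  have h2 : ‖u‖ ^ 2 < 1 := by nlinarith [norm_nonneg u]
  rw [← Complex.normSq_eq_norm_sq, Complex.normSq_apply] at h1 h2
  have h3 : Complex.normSq (1 + conj ζ * u) - Complex.normSq (u + ζ) =
      (1 - (ζ.re * ζ.re + ζ.im * ζ.im)) * (1 - (u.re * u.re + u.im * u.im)) := by
    simp only [Complex.normSq_apply, Complex.add_re, Complex.add_im, Complex.mul_re,
      Complex.mul_im, Complex.conj_re, Complex.conj_im, Complex.one_re, Complex.one_im]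
    ring
  have h4 := mul_pos (sub_pos.2 h1) (sub_pos.2 h2)
  linarith

private lemma ph_zero (ζ : ℂ) : ph ζ 0 = ζ := by simp [ph]

private lemma ph_sub {ζ : ℂ} (hζ : ‖ζ‖ < 1) {u : ℂ} (hu : ‖u‖ < 1) :
    ph ζ u - ζ = u * (1 - conj ζ * ζ) / (1 + conj ζ * u) := by
  have h := den_ne hζ hu
  rw [ph, div_sub' h]
  congr 1
  ring

private lemma ph_inv {ζ : ℂ} (hζ : ‖ζ‖ < 1) {u : ℂ} (hu : ‖u‖ < 1) :
    ph (-ζ) (ph ζ u) = u := by
  have h := den_ne hζ hu
  have h2 := c_ne hζ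
  have e1 : ph ζ u + -ζ = u * (1 - conj ζ * ζ) / (1 + conj ζ * u) := by
    rw [← sub_eq_add_neg, ph_sub hζ hu]
  have e2 : 1 + conj (-ζ) * ph ζ u = (1 - conj ζ * ζ) / (1 + conj ζ * u) := by
    rw [ph, map_neg, eq_div_iff h, add_mul, mul_assoc, div_mul_cancel₀ _ h]
    ring
  rw [ph, e1, e2, div_div_div_cancel_right₀ h, mul_div_cancel_right₀ _ h2]

private lemma ph_image {ζ : ℂ} (hζ : ‖ζ‖ < 1) : ph ζ '' D = D := by
  refine Subset.antisymm ?_ ?_
  · rintro _ ⟨u, hu, rfl⟩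
    rw [mem_ball_zero_iff] at hu ⊢
    exact ph_mem hζ hu
  · intro w hw
    rw [mem_ball_zero_iff] at hw
    have hζ' : ‖-ζ‖ < 1 := by rwa [norm_neg]
    refine ⟨ph (-ζ) w, ?_, ?_⟩
    · rw [mem_ball_zero_iff]
      exact ph_mem hζ' hw
    · have := ph_inv hζ' hw
      rwa [neg_neg] at this

private lemma ph_inj {ζ : ℂ} (hζ : ‖ζ‖ < 1) : InjOn (ph ζ) D := by
  intro u hu v hv h
  rw [mem_ball_zero_iff] at hu hv
  rw [← ph_inv hζ hu, ← ph_inv hζ hv, h]

private lemma ph_deriv {ζ : ℂ} (hζ : ‖ζ‖ < 1) {u : ℂ} (hu : ‖u‖ < 1) :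
    HasDerivAt (ph ζ) ((1 - conj ζ * ζ) / (1 + conj ζ * u) ^ 2) u := by
  have h := den_ne hζ hu
  have h1 : HasDerivAt (fun u : ℂ => u + ζ) 1 u := (hasDerivAt_id u).add_const ζ
  have h2 : HasDerivAt (fun u : ℂ => 1 + conj ζ * u) (conj ζ * 1) u :=
    ((hasDerivAt_id u).const_mul (conj ζ)).const_add 1
  have h3 := h1.div h2 h
  have e : (1 * (1 + conj ζ * u) - (u + ζ) * (conj ζ * 1)) / (1 + conj ζ * u) ^ 2 =
      (1 - conj ζ * ζ) / (1 + conj ζ * u) ^ 2 := by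
    congr 1
    ring
  rw [e] at h3
  exact h3

theorem pAT' (hCVH : StCVH) (hATZ : StATZ) :
    ∀ (f : ℂ → ℂ), DifferentiableOn ℂ f D → InjOn f D → ∀ ζ ∈ D,
    (ENNReal.ofReal (‖deriv f ζ‖ ^ 2) *
      ∫⁻ ξ in (f '' D)ᶜ, ENNReal.ofReal (‖ξ - f ζ‖⁻¹ ^ 4)) +
    ∫⁻ z in D, ENNReal.ofReal (‖dKern f z ζ‖ ^ 2) =
    ENNReal.ofReal (Real.pi / (1 - ‖ζ‖ ^ 2) ^ 2) := by
  intro f hf hinj ζ hζD
  have hζ : ‖ζ‖ < 1 := by rwa [mem_ball_zero_iff] at hζD
  have hD : IsOpen D := Metric.isOpen_ball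
  have h0D : (0 : ℂ) ∈ D := Metric.mem_ball_self one_pos
  set c : ℂ := 1 - conj ζ * ζ with hc
  have hc0 : c ≠ 0 := c_ne hζ
  have hcn : ‖c‖ = 1 - ‖ζ‖ ^ 2 := c_norm hζ
  have hcpos : 0 < 1 - ‖ζ‖ ^ 2 := by rw [← hcn]; exact norm_pos_iff.2 hc0
  have hfz : deriv f ζ ≠ 0 := Pool.TU.X5.deriv_ne_zero_of_injOn hD hf hinj hζD
  set p : ℂ := deriv f ζ * c with hp
  have hp0 : p ≠ 0 := mul_ne_zero hfz hc0
  set F : ℂ → ℂ := fun u => f (ph ζ u) - f ζ with hF
  have hphD : ∀ u ∈ D, ph ζ u ∈ D := fun u hu => by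
    rw [mem_ball_zero_iff] at hu ⊢
    exact ph_mem hζ hu
  have hF0 : F 0 = 0 := by simp only [hF, ph_zero, sub_self]
  have hFd : ∀ u ∈ D, HasDerivAt F (deriv f (ph ζ u) * (c / (1 + conj ζ * u) ^ 2)) u := by
    intro u hu
    have h1 : HasDerivAt f (deriv f (ph ζ u)) (ph ζ u) :=
      (hf.differentiableAt (hD.mem_nhds (hphD u hu))).hasDerivAt
    have h2 := ph_deriv hζ (by rwa [mem_ball_zero_iff] at hu : ‖u‖ < 1)
    exact (h1.comp u h2).sub_const _
  have hFdiff : DifferentiableOn ℂ F D := fun u hu =>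
    (hFd u hu).differentiableAt.differentiableWithinAt
  have hFinj : InjOn F D := by
    intro u hu v hv h
    have h1 : f (ph ζ u) = f (ph ζ v) := by
      simp only [hF] at h
      exact sub_left_injective h
    exact ph_inj hζ hu hv (hinj (hphD u hu) (hphD v hv) h1)
  have hFne : ∀ u ∈ D, u ≠ 0 → F u ≠ 0 := by
    intro u hu hu0 h
    rw [← hF0] at h
    exact hu0 (hFinj hu h0D h)
  -- the divided difference
  set G : ℂ → ℂ := dslope F 0 with hG
  have hGdiff : DifferentiableOn ℂ G D :=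
    (Complex.differentiableOn_dslope (hD.mem_nhds h0D)).2 hFdiff
  have hG0 : G 0 = p := by
    rw [hG, dslope_same, (hFd 0 h0D).deriv, ph_zero]
    simp [hp]
  have hGu : ∀ u, u ≠ 0 → G u = F u / u := by
    intro u hu0
    rw [hG, dslope_of_ne _ hu0, slope_def_field, hF0, sub_zero, sub_zero]
  have hGne : ∀ u ∈ D, G u ≠ 0 := by
    intro u hu
    by_cases hu0 : u = 0
    · rw [hu0, hG0]; exact hp0
    · rw [hGu u hu0]; exact div_ne_zero (hFne u hu hu0) hu0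
  set H : ℂ → ℂ := fun u => p / G u with hH
  have hHdiff : DifferentiableOn ℂ H D := (differentiableOn_const p).div hGdiff hGne
  have hH0 : H 0 = 1 := by simp only [hH, hG0]; exact div_self hp0
  set k : ℂ → ℂ := dslope H 0 with hk
  have hkdiff : DifferentiableOn ℂ k D :=
    (Complex.differentiableOn_dslope (hD.mem_nhds h0D)).2 hHdiff
  have hku : ∀ u, u ≠ 0 → k u = p / F u - u⁻¹ := by
    intro u hu0
    rw [hk, dslope_of_ne _ hu0, slope_def_field, hH0, sub_zero]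
    simp only [hH]
    rw [hGu u hu0, div_div_eq_mul_div, sub_div, mul_div_right_comm, mul_div_cancel_right₀ _ hu0,
      one_div]
  have hgu : ∀ u, u ≠ 0 → u⁻¹ + k u = p / F u := by
    intro u hu0
    rw [hku u hu0]; ring
  have hginj : InjOn (fun u => u⁻¹ + k u) (D \ {0}) := by
    intro u hu v hv h
    have hu0 : u ≠ 0 := hu.2
    have hv0 : v ≠ 0 := hv.2
    simp only [hgu u hu0, hgu v hv0] at h
    have h1 := hFne u hu.1 hu0
    have h2 := hFne v hv.1 hv0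
    rw [div_eq_div_iff h1 h2] at h
    exact (hFinj hv.1 hu.1 (mul_left_cancel₀ hp0 h)).symm
  have key := hATZ k hkdiff hginj
  -- the first volume
  have hfD : MeasurableSet (f '' D) :=
    hD.measurableSet.image_of_continuousOn_injOn hf.continuousOn hinj
  have hfζ : f ζ ∈ f '' D := mem_image_of_mem f hζD
  set m : ℂ → ℂ := fun ξ => p / (ξ - f ζ) with hm
  have hmd : ∀ ξ, ξ ≠ f ζ → HasDerivAt m (-p / (ξ - f ζ) ^ 2) ξ := by
    intro ξ hξ
    have h1 : HasDerivAt (fun ξ : ℂ => ξ - f ζ) 1 ξ := (hasDerivAt_id ξ).sub_const _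
    have h2 := (hasDerivAt_const ξ p).div h1 (sub_ne_zero.2 hξ)
    have e : (0 * (ξ - f ζ) - p * 1) / (ξ - f ζ) ^ 2 = -p / (ξ - f ζ) ^ 2 := by
      congr 1
      ring
    rw [e] at h2
    exact h2
  have hset : ((fun u => u⁻¹ + k u) '' (D \ {0}))ᶜ = {0} ∪ m '' (f '' D)ᶜ := by
    ext w
    constructor
    · intro hw
      by_cases hw0 : w = 0
      · exact Or.inl hw0
      · refine Or.inr ⟨f ζ + p / w, ?_, ?_⟩
        · rintro ⟨z, hz, hzf⟩
          have hz' : z ∈ ph ζ '' D := by rw [ph_image hζ]; exact hz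
          obtain ⟨u, hu, rfl⟩ := hz'
          have hFu : F u = p / w := by
            simp only [hF]
            rw [hzf]; ring
          have hu0 : u ≠ 0 := by
            rintro rfl
            rw [hF0] at hFu
            exact div_ne_zero hp0 hw0 hFu.symm
          refine hw ⟨u, ⟨hu, hu0⟩, ?_⟩
          simp only [hgu u hu0]
          rw [hFu, div_div_cancel₀ hp0]
        · simp only [hm]
          rw [add_sub_cancel_left, div_div_cancel₀ hp0]
    · rintro (hw | ⟨ξ, hξ, rfl⟩)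
      · rintro ⟨u, ⟨hu, hu0⟩, h⟩
        have hu0' : u ≠ 0 := hu0
        have h' : u⁻¹ + k u = 0 := h.trans hw
        rw [hgu u hu0'] at h'
        exact div_ne_zero hp0 (hFne u hu hu0') h'
      · rintro ⟨u, ⟨hu, hu0⟩, h⟩
        have hu0' : u ≠ 0 := hu0
        have hξ' : ξ ≠ f ζ := by
          rintro rfl
          exact hξ hfζ
        simp only [hgu u hu0', hm] at h
        rw [div_eq_div_iff (hFne u hu hu0') (sub_ne_zero.2 hξ')] at h
        have h2 := mul_left_cancel₀ hp0 h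
        refine hξ ⟨ph ζ u, hphD u hu, ?_⟩
        simp only [hF] at h2
        linear_combination -h2
  have hV1 : volume ((fun u => u⁻¹ + k u) '' (D \ {0}))ᶜ = volume (m '' (f '' D)ᶜ) := by
    rw [hset]
    refine le_antisymm ?_ (measure_mono subset_union_right)
    refine (measure_union_le _ _).trans ?_
    rw [measure_singleton, zero_add]
  have hminj : InjOn m (f '' D)ᶜ := by
    intro x hx y hy h
    have hx' : x ≠ f ζ := by
      rintro rfl
      exact hx hfζ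
    have hy' : y ≠ f ζ := by
      rintro rfl
      exact hy hfζ
    simp only [hm] at h
    rw [div_eq_div_iff (sub_ne_zero.2 hx') (sub_ne_zero.2 hy')] at h
    have h2 := mul_left_cancel₀ hp0 h
    linear_combination -h2
  have hV2 := hCVH {f ζ}ᶜ (f '' D)ᶜ m isOpen_compl_singleton
    (fun ξ hξ => (hmd ξ hξ).differentiableAt.differentiableWithinAt)
    (compl_subset_compl.2 (singleton_subset_iff.2 hfζ)) hfD.compl hminj (fun _ => 1)
  rw [setLIntegral_one] at hV2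
  have hV3 : ∫⁻ z in (f '' D)ᶜ, (1 : ℝ≥0∞) * ENNReal.ofReal (‖deriv m z‖ ^ 2) =
      ENNReal.ofReal (‖c‖ ^ 2) * (ENNReal.ofReal (‖deriv f ζ‖ ^ 2) *
        ∫⁻ ξ in (f '' D)ᶜ, ENNReal.ofReal (‖ξ - f ζ‖⁻¹ ^ 4)) := by
    rw [← lintegral_const_mul' _ _ ENNReal.ofReal_ne_top,
      ← lintegral_const_mul' _ _ ENNReal.ofReal_ne_top]
    refine setLIntegral_congr_fun hfD.compl fun ξ hξ => ?_
    have hξ' : ξ ≠ f ζ := by
      rintro rfl
      exact hξ hfζ
    simp only [one_mul]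
    rw [(hmd ξ hξ').deriv, ← ENNReal.ofReal_mul (by positivity),
      ← ENNReal.ofReal_mul (by positivity)]
    congr 1
    rw [norm_div, norm_neg, norm_pow, hp, norm_mul, inv_pow]
    have : ‖ξ - f ζ‖ ≠ 0 := norm_ne_zero_iff.2 (sub_ne_zero.2 hξ')
    field_simp
  -- the second integral
  have hI := hCVH D D (ph ζ) hD
    (fun u hu => (ph_deriv hζ (by rwa [mem_ball_zero_iff] at hu :
      ‖u‖ < 1)).differentiableAt.differentiableWithinAt) Subset.rfl hD.measurableSet (ph_inj hζ)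
    (fun w => ENNReal.ofReal (‖dKern f w ζ‖ ^ 2))
  rw [ph_image hζ] at hI
  have hkd : ∀ u ∈ D, u ≠ 0 → deriv k u =
      -(c * dKern f (ph ζ u) ζ * deriv (ph ζ) u) := by
    intro u hu hu0
    have hu1 : ‖u‖ < 1 := by rwa [mem_ball_zero_iff] at hu
    have hden := den_ne hζ hu1
    have hev : k =ᶠ[𝓝 u] fun v => p / F v - v⁻¹ := by
      filter_upwards [isOpen_compl_singleton.mem_nhds hu0] with v hv
      exact hku v hv
    have h1 := (hasDerivAt_const u p).div (hFd u hu) (hFne u hu hu0)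
    have h2 := (h1.sub (hasDerivAt_inv hu0)).congr_of_eventuallyEq hev
    rw [h2.deriv, (ph_deriv hζ hu1).deriv]
    have e1 : c * (1 / (ph ζ u - ζ) ^ 2) * (c / (1 + conj ζ * u) ^ 2) = (u ^ 2)⁻¹ := by
      have e0 : ∀ d x : ℂ, d ≠ 0 → x ≠ 0 →
          x * (1 / (u * x / d) ^ 2) * (x / d ^ 2) = (u ^ 2)⁻¹ := by
        intro d x hd hx
        field_simp
      rw [ph_sub hζ hu1, ← hc]
      exact e0 _ _ hden hc0
    simp only [dKern, hF, hp]
    have e2 : -(c * (deriv f (ph ζ u) * deriv f ζ / (f (ph ζ u) - f ζ) ^ 2 -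
        1 / (ph ζ u - ζ) ^ 2) * (c / (1 + conj ζ * u) ^ 2)) =
        -(c * (deriv f (ph ζ u) * deriv f ζ / (f (ph ζ u) - f ζ) ^ 2) *
          (c / (1 + conj ζ * u) ^ 2)) +
        c * (1 / (ph ζ u - ζ) ^ 2) * (c / (1 + conj ζ * u) ^ 2) := by ring
    rw [← hc, e2, e1]
    ring
  have hI2 : ∫⁻ u in D, ENNReal.ofReal (‖deriv k u‖ ^ 2) =
      ENNReal.ofReal (‖c‖ ^ 2) * ∫⁻ z in D, ENNReal.ofReal (‖dKern f z ζ‖ ^ 2) := by
    rw [hI, ← lintegral_const_mul' _ _ ENNReal.ofReal_ne_top]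
    refine lintegral_congr_ae ?_
    have h0 : ∀ᵐ u ∂(volume.restrict D), u ≠ (0 : ℂ) := by
      refine ae_restrict_of_ae ?_
      exact (measure_eq_zero_iff_ae_notMem.1 (measure_singleton (0 : ℂ))).mono
        fun u hu h => hu h
    filter_upwards [h0, ae_restrict_mem hD.measurableSet] with u hu0 hu
    rw [hkd u hu hu0, ← ENNReal.ofReal_mul (by positivity), ← ENNReal.ofReal_mul (by positivity)]
    congr 1
    rw [norm_neg, norm_mul, norm_mul]
    ring
  rw [hV1, hV2, hV3, hI2, ← mul_add] at key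
  have hc2 : ENNReal.ofReal (‖c‖ ^ 2) ≠ 0 := by
    rw [Ne, ENNReal.ofReal_eq_zero, not_le]
    have := norm_pos_iff.2 hc0
    positivity
  rw [ENNReal.ofReal_div_of_pos (by positivity), ← hcn, ENNReal.eq_div_iff hc2
    ENNReal.ofReal_ne_top]
  exact key

theorem pAT (hCVH : StCVH) (hATZ : StATZ) : StAT := pAT' hCVH hATZ

end Pool.Agent.Helper97.QE
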